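import Pool.Agent.H693.SR.Stm

set_option autoImplicit false

/-!
Proof of `H693SR.S_C` (small bias of the points `b (1, a, a², …)` of `(ℤ/r)^K`).
-/

namespace H93.SR

open Finset

section

variable {r : ℕ} [Fact r.Prime] {K : ℕ}

/-- the character `v ↦ e ⟨s, v⟩` -/
noncomputable def E (s v : Fin K → ZMod r) : ℂ := ZMod.stdAddChar (∑ i, s i * v i)

lemma E_add (s v w : Fin K → ZMod r) : E s (v + w) = E s v * E s w := by
  unfold E
  rw [← AddChar.map_add_eq_mul, ← Finset.sum_add_distrib]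
  congr 1
  exact Finset.sum_congr rfl fun i _ => by rw [Pi.add_apply, mul_add]

lemma E_zero_left (v : Fin K → ZMod r) : E 0 v = 1 := by
  simp [E]

lemma E_norm (s v : Fin K → ZMod r) : ‖E s v‖ = 1 := by
  unfold E
  exact AddChar.norm_apply _ _

lemma E_neg (s v : Fin K → ZMod r) : E s (-v) = (starRingEnd ℂ) (E s v) := by
  have h1 : E s v * E s (-v) = 1 := by
    rw [← E_add, add_neg_cancel]
    simp [E]
  have h2 : E s v * (starRingEnd ℂ) (E s v) = 1 := by
    rw [Complex.mul_conj, Complex.normSq_eq_norm_sq, E_norm]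
    simp
  have h0 : E s v ≠ 0 := by
    intro h
    rw [h, zero_mul] at h1
    exact zero_ne_one h1
  exact mul_left_cancel₀ h0 (h1.trans h2.symm)

lemma map_sum' {ι : Type*} (ψ : AddChar (ZMod r) ℂ) (t : Finset ι) (f : ι → ZMod r) :
    ψ (∑ i ∈ t, f i) = ∏ i ∈ t, ψ (f i) := by
  classical
  induction t using Finset.induction_on with
  | empty => simp
  | insert a t ha ih => rw [Finset.sum_insert ha, Finset.prod_insert ha, AddChar.map_add_eq_mul, ih]

lemma char_sum (c : ZMod r) :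
    ∑ b : ZMod r, (ZMod.stdAddChar (b * c) : ℂ) = if c = 0 then (r : ℂ) else 0 := by
  have := AddChar.sum_mulShift (R' := ℂ) c (ZMod.isPrimitive_stdAddChar r)
  rw [this, ZMod.card]
  split_ifs <;> simp

lemma E_sum (v : Fin K → ZMod r) :
    ∑ s : Fin K → ZMod r, E s v = if v = 0 then (r : ℂ) ^ K else 0 := by
  have h1 : ∑ s : Fin K → ZMod r, E s v
      = ∏ i : Fin K, ∑ x : ZMod r, (ZMod.stdAddChar (x * v i) : ℂ) := by
    rw [Finset.prod_univ_sum, Fintype.piFinset_univ]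
    refine Finset.sum_congr rfl fun s _ => ?_
    unfold E
    exact map_sum' _ _ _
  rw [h1]
  by_cases hv : v = 0
  · subst hv
    simp [ZMod.card]
  · rw [if_neg hv]
    obtain ⟨j, hj⟩ : ∃ j, v j ≠ 0 := by
      by_contra h
      push Not at h
      exact hv (funext h)
    refine Finset.prod_eq_zero (Finset.mem_univ j) ?_
    rw [char_sum, if_neg hj]

/-- Fourier transform of the indicator of `Z` -/
noncomputable def F (Z : Finset (Fin K → ZMod r)) (s : Fin K → ZMod r) : ℂ := ∑ x ∈ Z, E s x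

lemma parseval (Z : Finset (Fin K → ZMod r)) :
    ∑ s : Fin K → ZMod r, ‖F Z s‖ ^ 2 = (r : ℝ) ^ K * #Z := by
  have h : ∑ s : Fin K → ZMod r, ((‖F Z s‖ ^ 2 : ℝ) : ℂ) = ((r : ℝ) ^ K * #Z : ℝ) := by
    have h1 : ∀ s : Fin K → ZMod r, ((‖F Z s‖ ^ 2 : ℝ) : ℂ)
        = ∑ x ∈ Z, ∑ y ∈ Z, E s (x - y) := by
      intro s
      rw [← Complex.normSq_eq_norm_sq, ← Complex.mul_conj]
      unfold F
      rw [map_sum, Finset.sum_mul_sum]
      refine Finset.sum_congr rfl fun x _ => Finset.sum_congr rfl fun y _ => ?_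
      rw [sub_eq_add_neg, E_add, E_neg]
    rw [Finset.sum_congr rfl (fun s _ => h1 s), Finset.sum_comm]
    have h2 : ∀ x ∈ Z, ∑ s : Fin K → ZMod r, ∑ y ∈ Z, E s (x - y) = (r : ℂ) ^ K := by
      intro x hx
      rw [Finset.sum_comm]
      rw [Finset.sum_eq_single_of_mem x hx]
      · rw [E_sum, sub_self, if_pos rfl]
      · intro y _ hyx
        rw [E_sum, if_neg (sub_ne_zero.2 (Ne.symm hyx))]
    rw [Finset.sum_congr rfl h2]
    rw [Finset.sum_const, nsmul_eq_mul]
    push_cast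
    ring
  exact_mod_cast h

/-- number of the zeros of the polynomial with coefficients `s` -/
noncomputable def nz (s : Fin K → ZMod r) : ℕ :=
  #(univ.filter (fun a : ZMod r => ∑ i, s i * a ^ (i : ℕ) = 0))

lemma nz_le (s : Fin K → ZMod r) (hs : s ≠ 0) : nz s ≤ K := by
  classical
  let P : Polynomial (ZMod r) := ∑ i : Fin K, Polynomial.C (s i) * Polynomial.X ^ (i : ℕ)
  have hcoef : ∀ j : Fin K, P.coeff j = s j := by
    intro j
    simp only [P, Polynomial.finsetSum_coeff, Polynomial.coeff_C_mul, Polynomial.coeff_X_pow]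
    rw [Finset.sum_eq_single j]
    · simp
    · intro b _ hb
      have : ¬ ((j : ℕ) = (b : ℕ)) := fun h => hb (Fin.ext h.symm)
      simp [this]
    · intro h
      exact absurd (Finset.mem_univ j) h
  have hP : P ≠ 0 := by
    intro h
    apply hs
    funext j
    rw [← hcoef j, h]
    simp
  have hdeg : P.natDegree ≤ K := by
    refine Polynomial.natDegree_sum_le_of_forall_le _ _ (fun i _ => ?_)
    exact (Polynomial.natDegree_C_mul_X_pow_le _ _).trans i.2.le
  have hsub : (univ.filter (fun a : ZMod r => ∑ i, s i * a ^ (i : ℕ) = 0)) ⊆ P.roots.toFinset := by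
    intro a ha
    rw [Finset.mem_filter] at ha
    rw [Multiset.mem_toFinset, Polynomial.mem_roots hP, Polynomial.IsRoot.def]
    simp only [P, Polynomial.eval_finsetSum, Polynomial.eval_mul, Polynomial.eval_C,
      Polynomial.eval_pow, Polynomial.eval_X]
    exact ha.2
  calc nz s ≤ #P.roots.toFinset := Finset.card_le_card hsub
    _ ≤ Multiset.card P.roots := Multiset.toFinset_card_le _
    _ ≤ P.natDegree := Polynomial.card_roots' P
    _ ≤ K := hdeg

lemma key (Z C : Finset (Fin K → ZMod r))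
    (h : ∀ x ∈ Z, ∀ a b : ZMod r, (fun i : Fin K => x i + b * a ^ (i : ℕ)) ∉ C) :
    ∑ s : Fin K → ZMod r, F Z s * (starRingEnd ℂ) (F C s) * ((r : ℂ) * nz s) = 0 := by
  have h1 : ∀ s : Fin K → ZMod r, F Z s * (starRingEnd ℂ) (F C s) * ((r : ℂ) * nz s)
      = ∑ x ∈ Z, ∑ y ∈ C, ∑ a : ZMod r, ∑ b : ZMod r,
        E s ((fun i : Fin K => x i + b * a ^ (i : ℕ)) - y) := by
    intro s
    have h2 : ((r : ℂ) * nz s) = ∑ a : ZMod r, ∑ b : ZMod r,
        (ZMod.stdAddChar (b * ∑ i, s i * a ^ (i : ℕ)) : ℂ) := by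
      rw [Finset.sum_congr rfl (fun a _ => char_sum (∑ i, s i * a ^ (i : ℕ)))]
      rw [← Finset.sum_filter, Finset.sum_const, nsmul_eq_mul]
      unfold nz
      ring
    rw [h2]
    unfold F
    rw [map_sum, Finset.sum_mul_sum, Finset.sum_mul]
    refine Finset.sum_congr rfl fun x _ => ?_
    rw [Finset.sum_mul]
    refine Finset.sum_congr rfl fun y _ => ?_
    rw [Finset.mul_sum]
    refine Finset.sum_congr rfl fun a _ => ?_
    rw [Finset.mul_sum]
    refine Finset.sum_congr rfl fun b _ => ?_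
    have h3 : (fun i : Fin K => x i + b * a ^ (i : ℕ)) = x + fun i : Fin K => b * a ^ (i : ℕ) := rfl
    rw [h3, sub_eq_add_neg, E_add, E_add, E_neg]
    have h4 : E s (fun i : Fin K => b * a ^ (i : ℕ))
        = (ZMod.stdAddChar (b * ∑ i, s i * a ^ (i : ℕ)) : ℂ) := by
      unfold E
      congr 1
      rw [Finset.mul_sum]
      exact Finset.sum_congr rfl fun i _ => by ring
    rw [h4]
    ring
  rw [Finset.sum_congr rfl (fun s _ => h1 s), Finset.sum_comm]
  refine Finset.sum_eq_zero fun x hx => ?_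
  rw [Finset.sum_comm]
  refine Finset.sum_eq_zero fun y hy => ?_
  rw [Finset.sum_comm]
  refine Finset.sum_eq_zero fun a _ => ?_
  rw [Finset.sum_comm]
  refine Finset.sum_eq_zero fun b _ => ?_
  rw [E_sum, if_neg]
  intro h0
  exact h x hx a b (by rw [sub_eq_zero.1 h0]; exact hy)

end

theorem t_C : H693SR.S_C := by
  intro r hr K Z C h
  classical
  have hk := key Z C h
  have hr0 : (0 : ℝ) < r := by exact_mod_cast (Fact.out : r.Prime).pos
  -- split off `s = 0`
  rw [← Finset.add_sum_erase _ _ (Finset.mem_univ (0 : Fin K → ZMod r))] at hk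
  have hF0 : ∀ Y : Finset (Fin K → ZMod r), F Y 0 = (#Y : ℂ) := by
    intro Y
    unfold F
    simp [E_zero_left]
  have hn0 : nz (0 : Fin K → ZMod r) = r := by
    unfold nz
    simp [ZMod.card]
  rw [hF0, hF0, hn0] at hk
  set T := ∑ s ∈ (univ : Finset (Fin K → ZMod r)).erase 0,
    F Z s * (starRingEnd ℂ) (F C s) * ((r : ℂ) * nz s) with hT
  have h1 : (#Z : ℝ) * #C * r ^ 2 = ‖T‖ := by
    have h2 : T = -((#Z : ℂ) * #C * r ^ 2) := by
      have h3 : (#Z : ℂ) * (starRingEnd ℂ) (#C : ℂ) * ((r : ℂ) * r) + T = 0 := hk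
      rw [map_natCast] at h3
      linear_combination h3
    rw [h2, norm_neg]
    simp
  have h2 : ‖T‖ ≤ ∑ s ∈ (univ : Finset (Fin K → ZMod r)).erase 0, ‖F Z s‖ * ‖F C s‖ * (r * K) := by
    rw [hT]
    refine (norm_sum_le _ _).trans (Finset.sum_le_sum fun s hs => ?_)
    rw [norm_mul, norm_mul, norm_mul, RCLike.norm_conj]
    have : ‖(nz s : ℂ)‖ ≤ (K : ℝ) := by
      rw [Complex.norm_natCast]
      exact_mod_cast nz_le s (Finset.ne_of_mem_erase hs)
    have hrr : ‖(r : ℂ)‖ = (r : ℝ) := Complex.norm_natCast r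
    rw [hrr]
    gcongr
  have h3 : (∑ s ∈ (univ : Finset (Fin K → ZMod r)).erase 0, ‖F Z s‖ * ‖F C s‖) ^ 2
      ≤ ((r : ℝ) ^ K * #Z) * ((r : ℝ) ^ K * #C) := by
    refine (Finset.sum_mul_sq_le_sq_mul_sq _ _ _).trans ?_
    rw [← parseval Z, ← parseval C]
    gcongr
    · exact Finset.erase_subset _ _
    · exact Finset.erase_subset _ _
  set A := ∑ s ∈ (univ : Finset (Fin K → ZMod r)).erase 0, ‖F Z s‖ * ‖F C s‖ with hA
  have h4 : (#Z : ℝ) * #C * r ^ 2 ≤ A * (r * K) := by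
    rw [h1]
    refine h2.trans (le_of_eq ?_)
    rw [hA, Finset.sum_mul]
  have hA0 : 0 ≤ A := by positivity
  have h5 : ((#Z : ℝ) * #C * r ^ 2) ^ 2 ≤ ((r : ℝ) ^ K * #Z) * ((r : ℝ) ^ K * #C) * (r * K) ^ 2 := by
    calc ((#Z : ℝ) * #C * r ^ 2) ^ 2 ≤ (A * (r * K)) ^ 2 :=
          pow_le_pow_left₀ (by positivity) h4 2
      _ = A ^ 2 * (r * K) ^ 2 := by ring
      _ ≤ _ := by gcongr
  by_cases h0 : #Z * #C = 0
  · rw [h0, zero_mul]
    exact Nat.zero_le _
  · have hpos : (0 : ℝ) < #Z * #C := by exact_mod_cast Nat.pos_of_ne_zero h0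
    have h6 : ((#Z : ℝ) * #C * r ^ 2) * (#Z * #C * r ^ 2)
        ≤ (K ^ 2 * (r ^ K) ^ 2) * (#Z * #C * r ^ 2) := by
      calc _ = ((#Z : ℝ) * #C * r ^ 2) ^ 2 := by ring
        _ ≤ _ := h5
        _ = _ := by ring
    have h7 := le_of_mul_le_mul_right h6 (by positivity)
    exact_mod_cast h7

end H93.SR
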